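import Mathlib

set_option autoImplicit false

namespace Pool.Agent.Results.MP_a1c723_lc.Luzin

open Set Filter Function Topology Cardinal

/-- almost disjoint family of infinite subsets of `ℕ` -/
def AD (𝒜 : Set (Set ℕ)) : Prop :=
  (∀ A ∈ 𝒜, A.Infinite) ∧ ∀ A ∈ 𝒜, ∀ B ∈ 𝒜, A ≠ B → (A ∩ B).Finite

/-- the Isbell–Mrówka topology on `ℕ ∪ 𝒜`: a set is open when, with each `A ∈ 𝒜`, it contains
all but finitely many elements of `A` -/
def psi (𝒜 : Set (Set ℕ)) : TopologicalSpace (ℕ ⊕ 𝒜) where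
  IsOpen U := ∀ A : 𝒜, Sum.inr A ∈ U → {n ∈ A.1 | Sum.inl n ∉ U}.Finite
  isOpen_univ := fun _ _ => by simp
  isOpen_inter := fun _ _ a b A h => ((a A h.1).union (b A h.2)).subset fun _ hn =>
    (not_and_or.mp hn.2).imp (fun t => ⟨hn.1, t⟩) fun t => ⟨hn.1, t⟩
  isOpen_sUnion := fun _ h A ⟨U, a, b⟩ => (h U a A b).subset fun _ hn =>
    ⟨hn.1, fun t => hn.2 ⟨U, a, t⟩⟩

def star {X : Type} (U : Set X) (𝒰 : Set (Set X)) : Set X := ⋃₀ {V ∈ 𝒰 | (V ∩ U).Nonempty}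

def StarRothberger {X : Type} (t : TopologicalSpace X) : Prop :=
  ∀ 𝒰 : ℕ → Set (Set X), (∀ n, (∀ U ∈ 𝒰 n, IsOpen[t] U) ∧ ⋃₀ 𝒰 n = Set.univ) →
    ∃ U : ℕ → Set X, (∀ n, U n ∈ 𝒰 n) ∧ ⋃ n, star (U n) (𝒰 n) = Set.univ

noncomputable def covM : Cardinal :=
  sInf {c | ∃ F : Set (ℕ → ℕ), #F = c ∧ ∀ g : ℕ → ℕ, ∃ f ∈ F, {n | f n = g n}.Finite}

/-- the dominating number -/
noncomputable def dom : Cardinal :=
  sInf {c | ∃ D : Set (ℕ → ℕ), #D = c ∧ ∀ g : ℕ → ℕ, ∃ f ∈ D, ∀ᶠ n in atTop, g n ≤ f n}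

/-- cofinality of the countable subsets of a set of size `κ` under inclusion -/
noncomputable def cofCtbl (κ : Cardinal.{0}) : Cardinal :=
  Order.cof {s : Set κ.out // s.Countable}

lemma step {J : Type} [Countable J] [Infinite J] {B : J → Set ℕ} (h1 : ∀ j, (B j).Infinite)
    (h2 : ∀ i j, i ≠ j → (B i ∩ B j).Finite) : ∃ A : Set ℕ, A.Infinite ∧
      (∀ j, (A ∩ B j).Finite) ∧ ∀ m, {j | A ∩ B j ⊆ Iio m}.Finite := by
  obtain ⟨e, he⟩ := exists_injective_nat J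
  have fin : ∀ m, {j | e j ≤ m}.Finite := fun m => (finite_Iic m).preimage he.injOn
  have : ∀ j, ∃ x, x ∈ B j \ ⋃ i ∈ {i | e i ≤ e j} \ {j}, B j ∩ B i ∧ e j < x := fun j =>
    ((h1 j).diff (((fin _).subset diff_subset).biUnion fun i hi => h2 j i (Ne.symm hi.2))).exists_gt _
  choose x x1 x2 using this
  refine ⟨range x, infinite_of_forall_exists_gt fun m => ?_, fun j =>
    ((fin (e j)).image x).subset ?_, fun m => (fin m).subset fun j hj => ?_⟩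
  · obtain ⟨j, hj⟩ := (fin m).infinite_compl.nonempty
    exact ⟨x j, ⟨j, rfl⟩, (not_le.mp (show ¬ e j ≤ m from hj)).trans (x2 j)⟩
  · rintro _ ⟨⟨i, rfl⟩, t⟩
    refine ⟨i, show e i ≤ e j from not_lt.mp fun s : e j < e i =>
      (x1 i).2 (mem_biUnion (x := j) ⟨s.le, ?_⟩ ⟨(x1 i).1, t⟩), rfl⟩
    rintro rfl
    exact s.false
  · exact ((x2 j).trans (hj ⟨⟨j, rfl⟩, (x1 j).1⟩)).le

lemma luzin {ι : Type} [LinearOrder ι] [WellFoundedLT ι] (hc : ∀ α : ι, (Iio α).Countable) :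
    ∃ A : ι → Set ℕ, (∀ α, (A α).Infinite) ∧ (∀ α β, β < α → (A α ∩ A β).Finite) ∧
      ∀ α m, {β | β < α ∧ A α ∩ A β ⊆ Iio m}.Finite := by
  let C : ℕ → Set ℕ := fun k => range (Nat.pair k)
  let Q : (α : ι) → ((β : ι) → β < α → Set ℕ) → Set ℕ → Prop := fun α F A =>
    A.Infinite ∧ (∀ k, (A ∩ C k).Finite) ∧ (∀ β h, (A ∩ F β h).Finite) ∧
      ∀ m, {β | ∃ h, A ∩ F β h ⊆ Iio m}.Finite
  let I : ι → Set ℕ := wellFounded_lt.fix (fun α F => Classical.epsilon (Q α F))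
  have hI : ∀ α, I α = Classical.epsilon (Q α (fun β _ => I β)) :=
    fun α => wellFounded_lt.fix_eq _ α
  have key : ∀ α, Q α (fun β _ => I β) (I α) := by
    intro α
    refine wellFounded_lt.induction (C := fun α => Q α (fun β _ => I β) (I α)) α fun α ih => ?_
    rw [hI α]
    apply Classical.epsilon_spec
    haveI := (hc α).to_subtype
    obtain ⟨A, a1, a2, a3⟩ := step (J := ℕ ⊕ Iio α) (B := Sum.elim C fun β => I β) (by
      rintro (k | β)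
      · exact infinite_range_of_injective fun x y h => (Nat.pair_eq_pair.mp h).2
      · exact (ih β β.2).1) (by
      rintro (k | β) (l | γ) h
      · refine finite_empty.subset ?_
        rintro _ ⟨⟨x, rfl⟩, y, t⟩
        exact h (congrArg _ (Nat.pair_eq_pair.mp t).1.symm)
      · exact inter_comm _ _ ▸ (ih γ γ.2).2.1 k
      · exact (ih β β.2).2.1 l
      · rcases lt_trichotomy β γ with t | t | t
        · exact inter_comm _ _ ▸ (ih γ γ.2).2.2.1 β t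
        · exact absurd (congrArg _ t) h
        · exact (ih β β.2).2.2.1 γ t)
    refine ⟨A, a1, fun k => a2 (.inl k), fun β h => a2 (.inr ⟨β, h⟩), fun m =>
      ((a3 m).image (Sum.elim (fun _ => α) Subtype.val)).subset ?_⟩
    rintro β ⟨h, t⟩
    exact ⟨.inr ⟨β, h⟩, t, rfl⟩
  exact ⟨I, fun α => (key α).1, fun α => (key α).2.2.1, fun α m => ((key α).2.2.2 m).subset
    fun β h => ⟨h.1, h.2⟩⟩

lemma main (hd : ℵ₁ < dom) : cofCtbl ℵ₁ = ℵ₁ ∧
    ∃ 𝒜 : Set (Set ℕ), AD 𝒜 ∧ #𝒜 = ℵ₁ ∧ StarRothberger (psi 𝒜) := by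
  obtain ⟨_, _, hr⟩ := exists_ord_eq_type_lt (ℵ₁ : Cardinal.{0}).out
  have hc : ∀ α : (ℵ₁ : Cardinal.{0}).out, (Iio α).Countable := fun α => by
    rw [countable_iff_lt_aleph_one]
    exact (mk_Iio_lt α hr).trans_eq (mk_out _)
  have hc' : ∀ α : (ℵ₁ : Cardinal.{0}).out, (Iic α).Countable := fun α =>
    Iio_insert (a := α) ▸ (hc α).insert α
  have un : ¬ (Set.univ : Set (ℵ₁ : Cardinal.{0}).out).Countable := by
    rw [countable_iff_lt_aleph_one]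
    simp
  constructor
  · refine le_antisymm ((Order.cof_le (s := range fun α => ⟨Iic α, hc' α⟩) fun s => ?_).trans
      (mk_range_le.trans_eq (mk_out _))) (Order.le_cof_iff.mpr fun S hS => not_lt.mp fun t => ?_)
    · by_contra t
      refine un ((s.2.biUnion fun α _ => hc' α).mono fun α _ => ?_)
      by_contra u
      exact t ⟨_, ⟨α, rfl⟩, fun β hβ => le_of_not_ge fun v => u (mem_biUnion hβ v)⟩
    · refine un ((((countable_iff_lt_aleph_one S).mpr t).biUnion fun s _ => s.2).mono fun α _ => ?_)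
      obtain ⟨s, a, b⟩ := hS ⟨{α}, countable_singleton α⟩
      exact mem_biUnion a (b rfl)
  obtain ⟨A, a1, a2, a3⟩ := luzin hc
  have ad : ∀ α β, α ≠ β → (A α ∩ A β).Finite := fun α β h =>
    h.lt_or_gt.elim (fun t => inter_comm _ _ ▸ a2 β α t) (a2 α β)
  refine ⟨range A, ⟨by rintro _ ⟨α, rfl⟩; exact a1 α, by
    rintro _ ⟨α, rfl⟩ _ ⟨β, rfl⟩ h
    exact ad α β fun t => h (by rw [t])⟩, ?_, fun 𝒰 hU => ?_⟩
  · rw [mk_range_eq _ fun α β h => ?_, mk_out]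
    by_contra t
    exact a1 β (by simpa [h] using ad α β t)
  choose V v1 v2 using fun n x => (eq_univ_iff_forall.mp (hU n).2) x
  let p : (ℵ₁ : Cardinal.{0}).out → ℕ ⊕ range A := fun α => .inr ⟨A α, α, rfl⟩
  have : ∀ n α, ∃ c, ∀ i ∈ A α, c ≤ i → Sum.inl i ∈ V n (p α) := fun n α => by
    obtain ⟨c, hc⟩ := ((hU n).1 _ (v1 n (p α)) _ (v2 n _)).bddAbove
    exact ⟨c + 1, fun i hi t => not_not.mp fun u => absurd (hc ⟨hi, u⟩) (by omega)⟩
  choose f hf using this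
  have : ∀ k, ∃ c, ∃ s : ℕ → (ℵ₁ : Cardinal.{0}).out, Injective s ∧ ∀ i, f (2 * k) (s i) = c := by
    intro k
    obtain ⟨c, hc⟩ : ∃ c, (f (2 * k) ⁻¹' {c}).Infinite := by
      by_contra t
      push Not at t
      exact un ((countable_iUnion fun c => (t c).countable).mono fun α _ =>
        mem_iUnion.mpr ⟨f (2 * k) α, rfl⟩)
    exact ⟨c, fun i => hc.natEmbedding _ i, Subtype.val_injective.comp (hc.natEmbedding _).injective,
      fun i => (hc.natEmbedding _ i).2⟩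
  choose c s s1 s2 using this
  choose g hg using fun α k => ((a3 α (max (f (2 * k) α) (c k))).preimage (s1 k).injOn).bddAbove
  obtain ⟨h, hh⟩ : ∃ h : ℕ → ℕ, ∀ α, ∃ k, g α k < h k := by
    by_contra t
    push Not at t
    have : dom ≤ #(range g) := csInf_le' ⟨range g, rfl, fun h => by
      obtain ⟨α, hα⟩ := t h
      exact ⟨_, ⟨α, rfl⟩, Eventually.of_forall hα⟩⟩
    exact absurd hd (not_lt.mpr (this.trans (mk_range_le.trans_eq (mk_out _))))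
  obtain ⟨y, hy⟩ := ((countable_range Sum.inl).union ((countable_iUnion fun k =>
    countable_iUnion fun i => hc' (s k i)).image p)).exists_eq_range ⟨.inl 0, Or.inl ⟨0, rfl⟩⟩
  refine ⟨fun n => V n (if n % 2 = 0 then p (s (n / 2) (h (n / 2))) else y (n / 2)),
    fun n => v1 _ _, eq_univ_of_forall fun x => ?_⟩
  by_cases hx : x ∈ range y
  · obtain ⟨k, rfl⟩ := hx
    refine mem_iUnion.mpr ⟨2 * k + 1, _, ⟨v1 _ (y k), y k, v2 _ _, ?_⟩, v2 _ _⟩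
    beta_reduce
    rw [if_neg (by omega), show (2 * k + 1) / 2 = k by omega]
    exact v2 _ _
  rw [← hy] at hx
  rcases x with n | ⟨_, α, rfl⟩
  · exact absurd (Or.inl ⟨n, rfl⟩) hx
  obtain ⟨k, hk⟩ := hh α
  have : ¬ A α ∩ A (s k (h k)) ⊆ Iio (max (f (2 * k) α) (c k)) := fun t =>
    absurd (hg α k ⟨not_le.mp fun u => hx (Or.inr ⟨α, mem_iUnion₂.mpr ⟨k, h k, u⟩, rfl⟩), t⟩)
      (not_le.mpr hk)
  obtain ⟨i, i1, i2⟩ := not_subset.mp this
  have i3 := max_le_iff.mp (not_lt.mp (show ¬ i < max (f (2 * k) α) (c k) from i2))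
  refine mem_iUnion.mpr ⟨2 * k, _, ⟨v1 _ (p α), .inl i, hf _ _ i i1.1 i3.1, ?_⟩, v2 _ _⟩
  beta_reduce
  rw [if_pos (by omega), show 2 * k / 2 = k by omega]
  exact hf _ _ i i1.2 (s2 k _ ▸ i3.2)

/-- If `ℵ₁ < 𝔡` there is a star-Rothberger `Ψ`-space of size `ℵ₁`; so under
`cov(M) ≤ ℵ₁ < 𝔡` the space asked for exists. -/
theorem result :
    (ℵ₁ < dom → ∃ 𝒜 : Set (Set ℕ), AD 𝒜 ∧ #𝒜 = ℵ₁ ∧ StarRothberger (psi 𝒜)) ∧
    (covM ≤ ℵ₁ → ℵ₁ < dom → ∃ (κ : Cardinal.{0}) (𝒜 : Set (Set ℕ)), AD 𝒜 ∧ #𝒜 = κ ∧ covM ≤ κ ∧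
      cofCtbl κ = κ ∧ StarRothberger (psi 𝒜)) :=
  ⟨fun h => (main h).2, fun h1 h2 => by
    obtain ⟨a, 𝒜, b, c, d⟩ := main h2
    exact ⟨_, 𝒜, b, c, h1, a, d⟩⟩

end Pool.Agent.Results.MP_a1c723_lc.Luzin
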